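import Mathlib
import Pool.Agent.Lib.MP_f76209_pr.Every

/-!
# MP_f76209_pr: no arc of the Brownian graph is conformally removable

Almost surely, simultaneously for all `0 ≤ a < b`, the graph of Brownian motion over `[a, b]`, and
every set which contains it, is not conformally removable; the exceptional homeomorphisms can be
taken as close to the identity as one likes, with an inverse which is Lipschitz with a constant as
close to `1` as one likes.
-/

set_option autoImplicit false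
open MeasureTheory ProbabilityTheory Set
open scoped NNReal

namespace Pool.Agent.Results.MP_f76209_pr.EveryArc

/-- Standard one-dimensional Brownian motion on `[0, ∞)`: started at `0`, almost surely continuous,
Gaussian increments `N(0, t - s)`, independent increments. -/
structure IsBrownianMotion {Ω : Type} [MeasurableSpace Ω] (P : Measure Ω) (B : ℝ≥0 → Ω → ℝ) :
    Prop where
  zero : ∀ᵐ ω ∂P, B 0 ω = 0
  continuous_paths : ∀ᵐ ω ∂P, Continuous fun t => B t ω
  gaussian_increments : ∀ s t : ℝ≥0, s ≤ t →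
    P.map (fun ω => B t ω - B s ω) = gaussianReal 0 (t - s)
  independent_increments : ∀ (n : ℕ) (τ : ℕ → ℝ≥0), Monotone τ →
    iIndepFun (fun (i : Fin n) (ω : Ω) => B (τ (i.val + 1)) ω - B (τ i.val) ω) P

/-- The graph `{(t, x t) : a ≤ t ≤ b}` as a subset of the complex plane. -/
def graphOver (x : ℝ≥0 → ℝ) (a b : ℝ≥0) : Set ℂ :=
  {z : ℂ | ∃ t : ℝ≥0, a ≤ t ∧ t ≤ b ∧ z = Complex.mk (t : ℝ) (x t)}

/-- Conformal on the open set `U`: holomorphic, injective, with nonvanishing derivative. -/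
def IsConformalOn (φ : ℂ → ℂ) (U : Set ℂ) : Prop :=
  DifferentiableOn ℂ φ U ∧ InjOn φ U ∧ ∀ z ∈ U, deriv φ z ≠ 0

/-- `K` is conformally removable: every homeomorphism of the plane which is conformal off `K` is
conformal on the whole plane. -/
def ConformallyRemovable (K : Set ℂ) : Prop :=
  ∀ φ : ℂ ≃ₜ ℂ, IsConformalOn (φ : ℂ → ℂ) Kᶜ → IsConformalOn (φ : ℂ → ℂ) univ

theorem result (Ω : Type) [MeasurableSpace Ω] (P : Measure Ω) [IsProbabilityMeasure P]
    (B : ℝ≥0 → Ω → ℝ) (hB : IsBrownianMotion P B) :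
    ∀ᵐ ω ∂P, ∀ a b : ℝ≥0, a < b →
      (∀ K : Set ℂ, IsCompact K → graphOver (fun t => B t ω) a b ⊆ K → ¬ ConformallyRemovable K) ∧
      ∀ δ : ℝ, 0 < δ → ∃ φ : ℂ ≃ₜ ℂ,
        IsConformalOn (φ : ℂ → ℂ) (graphOver (fun t => B t ω) a b)ᶜ ∧
        ¬ Differentiable ℂ (φ : ℂ → ℂ) ∧
        (∀ z, ‖φ z - z‖ ≤ δ) ∧ ∀ z w, ‖z - w‖ ≤ (1 + δ) * ‖φ z - φ w‖ := by
  classical
  set A : Set Ω := {ω | B 0 ω = 0 ∧ Continuous fun t => B t ω} with hAdef
  have hA : ∀ᵐ ω ∂P, ω ∈ A := by
    filter_upwards [hB.zero, hB.continuous_paths] with ω h1 h2 using ⟨h1, h2⟩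
  set B' : ℝ → Ω → ℝ := fun t ω => if ω ∈ A then B t.toNNReal ω else 0 with hB'
  have hB'A : ∀ ω ∈ A, ∀ t, B' t ω = B t.toNNReal ω := by
    intro ω hω t
    simp only [hB', if_pos hω]
  have hincr : ∀ s t : ℝ, (fun ω => B' t ω - B' s ω) =ᵐ[P]
      fun ω => B t.toNNReal ω - B s.toNNReal ω := by
    intro s t
    filter_upwards [hA] with ω hω
    rw [hB'A ω hω, hB'A ω hω]
  have key := BG.ae_every Ω P B'
    (by
      intro ω
      by_cases hω : ω ∈ A
      · have h1 : (fun t => B' t ω) = (fun t : ℝ≥0 => B t ω) ∘ Real.toNNReal := by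
          funext t
          exact hB'A ω hω t
        rw [h1]
        exact hω.2.comp continuous_real_toNNReal
      · have h1 : (fun t => B' t ω) = fun _ => (0 : ℝ) := by
          funext t
          simp only [hB', if_neg hω]
        rw [h1]
        exact continuous_const)
    (by
      intro s t h0 hst
      rw [Measure.map_congr (hincr s t),
        hB.gaussian_increments _ _ (Real.toNNReal_le_toNNReal hst)]
      congr 1
      apply NNReal.coe_injective
      rw [NNReal.coe_sub (Real.toNNReal_le_toNNReal hst), Real.coe_toNNReal _ h0,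
        Real.coe_toNNReal _ (h0.trans hst), Real.coe_toNNReal _ (sub_nonneg.2 hst)])
    (by
      intro n τ hτ _
      have h1 := hB.independent_increments n (fun i => (τ i).toNNReal)
        (fun i j hij => Real.toNNReal_le_toNNReal (hτ hij))
      exact h1.congr fun i => (hincr _ _).symm)
  filter_upwards [hA, key] with ω hω hk
  intro a b hab
  have hset : {z : ℂ | ∃ t ∈ Set.Icc (a : ℝ) b, z = Complex.mk t (B' t ω)}
      = graphOver (fun t => B t ω) a b := by
    ext z
    constructor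
    · rintro ⟨t, ht, rfl⟩
      have h0 : 0 ≤ t := a.coe_nonneg.trans ht.1
      refine ⟨t.toNNReal, ?_, ?_, ?_⟩
      · rw [← NNReal.coe_le_coe, Real.coe_toNNReal _ h0]; exact ht.1
      · rw [← NNReal.coe_le_coe, Real.coe_toNNReal _ h0]; exact ht.2
      · rw [Real.coe_toNNReal _ h0, hB'A ω hω]
    · rintro ⟨t, h1, h2, rfl⟩
      refine ⟨(t : ℝ), ⟨NNReal.coe_le_coe.2 h1, NNReal.coe_le_coe.2 h2⟩, ?_⟩
      rw [hB'A ω hω, Real.toNNReal_coe]
  have main : ∀ δ : ℝ, 0 < δ → ∃ φ : ℂ ≃ₜ ℂ,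
      IsConformalOn (φ : ℂ → ℂ) (graphOver (fun t => B t ω) a b)ᶜ ∧
      ¬ Differentiable ℂ (φ : ℂ → ℂ) ∧
      (∀ z, ‖φ z - z‖ ≤ δ) ∧ ∀ z w, ‖z - w‖ ≤ (1 + δ) * ‖φ z - φ w‖ := by
    intro δ hδ
    obtain ⟨φ, h1, h2, h3, h4⟩ := hk a b a.coe_nonneg (NNReal.coe_lt_coe.2 hab) δ hδ
    rw [hset] at h1
    refine ⟨φ, ⟨h1, φ.injective.injOn, ?_⟩, h2, h3, h4⟩
    intro z hz
    have hcl : IsClosed (graphOver (fun t => B t ω) a b) := by
      have h5 : graphOver (fun t => B t ω) a b
          = (fun t : ℝ≥0 => (((t : ℝ) : ℂ) + (B t ω : ℂ) * Complex.I)) '' Set.Icc a b := by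
        ext z
        constructor
        · rintro ⟨t, g1, g2, rfl⟩
          exact ⟨t, ⟨g1, g2⟩, by apply Complex.ext <;> simp⟩
        · rintro ⟨t, g1, rfl⟩
          exact ⟨t, g1.1, g1.2, by apply Complex.ext <;> simp⟩
      rw [h5]
      apply IsCompact.isClosed
      apply isCompact_Icc.image
      have h6 : Continuous fun t : ℝ≥0 => B t ω := hω.2
      fun_prop
    exact BG.deriv_ne_zero_of_expand φ (1 + δ) h4 z
      ((h1 z hz).differentiableAt (hcl.isOpen_compl.mem_nhds hz))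
  refine ⟨?_, main⟩
  intro K _ hK hrem
  obtain ⟨φ, ⟨h1, h2, h3⟩, h4, _⟩ := main 1 one_pos
  have hsub : Kᶜ ⊆ (graphOver (fun t => B t ω) a b)ᶜ := Set.compl_subset_compl.2 hK
  have h5 := hrem φ ⟨h1.mono hsub, h2.mono hsub, fun z hz => h3 z (hsub hz)⟩
  exact h4 (differentiableOn_univ.1 h5.1)

end Pool.Agent.Results.MP_f76209_pr.EveryArc
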